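import Pool.Agent.Y681.Z7.SymCore
import Pool.Agent.Y687.K2.Par

/-!
# The modular symbol of `X_0(14)` as a counting function (`t_SYM`)
-/

set_option autoImplicit false

open Finset

namespace Pool.Agent.Y681.Z7

open Pool.Agent.Y687

variable {s : ℚ → ℤ} {a : ℕ → ℤ}

/-- the symbol is given by the counting function -/
def Gd (s : ℚ → ℤ) (x M : ℤ) : Prop := 2 * s ((x : ℚ) / M) = s 0 * (2 - 3 * G x M)

theorem Gd.neg_neg {x M : ℤ} (h : Gd s x M) : Gd s (-x) (-M) := by
  unfold Gd at h ⊢
  rw [G_neg_neg, ← h]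
  push_cast
  rw [neg_div_neg_eq]

theorem Gd.neg (H : Symb2 s a) {x M : ℤ} (h : Gd s x M) : Gd s (-x) M := by
  unfold Gd at h ⊢
  rw [G_neg, ← h]
  push_cast
  rw [neg_div, H.neg]

theorem Gd.add (H : Symb2 s a) {x M : ℤ} (hM : M ≠ 0) (m : ℤ) (h : Gd s x M) :
    Gd s (x + m * M) M := by
  unfold Gd at h ⊢
  have hMq : (M : ℚ) ≠ 0 := by exact_mod_cast hM
  have e : (((x + m * M : ℤ) : ℚ) / M) = (x : ℚ) / M + m := by
    push_cast
    field_simp
  rw [e, per_int H.per, G_add, ← h]

theorem Gd.one (H : Symb2 s a) (x : ℤ) : Gd s x 1 := by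
  unfold Gd
  have e : ((x : ℚ) / ((1 : ℤ) : ℚ)) = 0 + (x : ℤ) := by simp
  rw [e, per_int H.per, G_one]
  ring

theorem Gd.of_aff (H : Symb2 s a) {A B D : ℤ} {c : ℕ} (hdet : A * D - B * (14 * c) = 1)
    {x M : ℤ} (hcop : IsCoprime (14 * x) M)
    (h1 : Gd s (A * x + B * M) (14 * c * x + D * M))
    (h2 : Gd s B D) : Gd s x M := by
  unfold Gd at h1 h2 ⊢
  have h3 := G_aff (a := A) (b := B) (c := 14 * c) (d := D) hdet ⟨c, rfl⟩ (NV_cop hcop)
  have h4 := H.aff hdet hcop
  rw [h3, h4] at h1
  linear_combination h1 - h2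

theorem Gd13 (H : Symb2 s a) : Gd s 1 3 := by
  have h1 := H.s13
  have e : (((1 : ℤ) : ℚ) / ((3 : ℤ) : ℚ)) = 1 / 3 := by norm_num
  unfold Gd
  rw [e, h1, G_eq (NV_cop ⟨-1, 5, by norm_num⟩), Fp13]
  ring

theorem Gd15 (H : Symb2 s a) : Gd s 1 5 := by
  have h1 := H.s15
  have e : (((1 : ℤ) : ℚ) / ((5 : ℤ) : ℚ)) = 1 / 5 := by norm_num
  unfold Gd
  rw [e, h1, G_eq (NV_cop ⟨-1, 3, by norm_num⟩), Fp15]
  ring

theorem Gd613 (H : Symb2 s a) (h5 : a 5 = 0) : Gd s 6 13 := by
  have h1 := H.s613 (k := 0) (by rw [h5]; ring)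
  have e : (((6 : ℤ) : ℚ) / ((13 : ℤ) : ℚ)) = 6 / 13 := by norm_num
  unfold Gd
  rw [e, h1, G_eq (NV_cop ⟨-2, 13, by norm_num⟩), Fp613]
  ring

theorem Gd_all (H : Symb2 s a) (h5 : a 5 = 0) (n : ℕ) : ∀ x M : ℤ, M.natAbs = n → M ≠ 0 →
    IsCoprime (14 * x) M → Gd s x M := by
  induction n using Nat.strong_induction_on with
  | _ n ih =>
    intro x M hn hM0 hcop
    -- reduction to positive denominators
    wlog hMp : 0 < M generalizing x M
    · have h1 := this (-x) (-M) (by rw [Int.natAbs_neg, hn]) (neg_ne_zero.2 hM0)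
        (by rw [mul_neg]; exact hcop.neg_neg) (by omega)
      have h2 := h1.neg_neg
      rwa [_root_.neg_neg, _root_.neg_neg] at h2
    rcases eq_or_ne M 1 with rfl | hM1
    · exact Gd.one H x
    have hodd : M % 2 = 1 := by
      rcases Int.emod_two_eq_zero_or_one M with h1 | h1
      · exfalso
        have h2 : (2 : ℤ) ∣ 14 * x := ⟨7 * x, by ring⟩
        have h3 := hcop.isUnit_of_dvd' h2 (Int.dvd_of_emod_eq_zero h1)
        rw [Int.isUnit_iff] at h3
        omega
      · exact h1
    -- `14 x` is not divisible by `M`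
    have hnd : ∀ j : ℤ, 14 * x ≠ j * M := by
      intro j hj
      have h3 := hcop.isUnit_of_dvd' (Dvd.intro_left j hj.symm) (dvd_refl M)
      rw [Int.isUnit_iff] at h3
      omega
    -- the general step
    have step : ∀ (y : ℤ), IsCoprime (14 * y) M → 0 < y → 2 * y < M → Gd s y M := by
      intro y hy hy0 hy1
      have hnd' : ∀ j : ℤ, 14 * y ≠ j * M := by
        intro j hj
        have h3 := hy.isUnit_of_dvd' (Dvd.intro_left j hj.symm) (dvd_refl M)
        rw [Int.isUnit_iff] at h3
        omega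
      have main : ∀ (A B D : ℤ) (c : ℕ), A * D - B * (14 * c) = 1 → 0 < c →
          |14 * c * y + D * M| < M → Gd s B D → Gd s y M := by
        intro A B D c hdet hc hlt hBD
        have hK : 14 * (c : ℤ) * y + D * M ≠ 0 := by
          intro h0
          have h1 : D % 2 = 1 := by
            rcases Int.emod_two_eq_zero_or_one D with h1 | h1
            · exfalso
              obtain ⟨d, hd⟩ := Int.dvd_of_emod_eq_zero h1
              rw [hd] at hdet
              have : (2 : ℤ) ∣ 1 := ⟨A * d - B * (7 * c), by rw [← hdet]; ring⟩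
              norm_num at this
            · exact h1
          obtain ⟨d, hd⟩ : ∃ d, D = 2 * d + 1 := ⟨D / 2, by omega⟩
          obtain ⟨e, he⟩ : ∃ e, M = 2 * e + 1 := ⟨M / 2, by omega⟩
          rw [hd, he] at h0
          have : (2 : ℤ) ∣ 1 := ⟨-(7 * c * y + 2 * d * e + d + e), by linear_combination h0⟩
          norm_num at this
        refine Gd.of_aff H hdet hy ?_ hBD
        refine ih _ ?_ _ _ rfl hK ?_
        · rw [← hn]
          zify
          rw [abs_of_pos hMp]
          exact hlt
        · -- coprimality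
          obtain ⟨u, v, huv⟩ := hy
          have h14 : IsCoprime (14 : ℤ) (14 * (c : ℤ) * y + D * M) := by
            have h1 : IsCoprime (14 : ℤ) (D * M) := by
              refine IsCoprime.mul_right ⟨-(B * c), A, by linear_combination hdet⟩
                ⟨u * y, v, by linear_combination huv⟩
            have h2 : 14 * (c : ℤ) * y + D * M = D * M + 14 * (c * y) := by ring
            rw [h2]
            exact (IsCoprime.add_mul_left_right_iff).2 h1
          refine IsCoprime.mul_left h14 ?_
          -- Bezout from the inverse matrix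
          refine ⟨u * 14 * D - v * (14 * c), -(u * 14 * B) + v * A, ?_⟩
          linear_combination (u * 14 * y + v * M) * hdet + huv
      have c1 : 14 * y < 2 * M ∨ (2 * M < 14 * y ∧ 14 * y < 4 * M) ∨
          (4 * M < 14 * y ∧ 14 * y < 6 * M) ∨ (6 * M < 14 * y ∧ 14 * y < 7 * M) := by
        have := hnd' 2
        have := hnd' 4
        have := hnd' 6
        omega
      rcases c1 with c1 | c1 | c1 | c1
      · refine main (-1) 0 (-1) 1 (by norm_num) one_pos ?_ ?_
        · rw [abs_lt]
          push_cast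
          constructor <;> omega
        · have h1 := (Gd.one H 0).neg_neg
          exact h1
      · refine main (-5) 1 (-3) 1 (by norm_num) one_pos ?_ ?_
        · rw [abs_lt]
          push_cast
          constructor <;> omega
        · have h1 := ((Gd13 H).neg H).neg_neg
          exact h1
      · refine main (-3) 1 (-5) 1 (by norm_num) one_pos ?_ ?_
        · rw [abs_lt]
          push_cast
          constructor <;> omega
        · have h1 := ((Gd15 H).neg H).neg_neg
          exact h1
      · refine main (-13) 6 (-13) 2 (by norm_num) two_pos ?_ ?_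
        · rw [abs_lt]
          push_cast
          constructor <;> omega
        · have h1 := ((Gd613 H h5).neg H).neg_neg
          exact h1
    -- reduce `x` modulo `M`
    obtain ⟨y, m, hxy, hy0, hyM⟩ : ∃ y m : ℤ, x = y + m * M ∧ 0 ≤ y ∧ y < M :=
      ⟨x % M, x / M, by linear_combination -(Int.emod_add_mul_ediv x M), Int.emod_nonneg _ hM0,
        Int.emod_lt_of_pos _ hMp⟩
    have hcy : IsCoprime (14 * y) M := by
      have h1 : 14 * x = 14 * y + (14 * m) * M := by rw [hxy]; ring
      rw [h1] at hcop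
      exact (IsCoprime.add_mul_right_left_iff).1 hcop
    have hy00 : y ≠ 0 := by
      rintro rfl
      exact hnd (14 * m) (by rw [hxy]; ring)
    rw [hxy]
    refine Gd.add H hM0 m ?_
    rcases lt_or_ge (2 * y) M with h1 | h1
    · exact step y hcy (by omega) h1
    · have h2 : IsCoprime (14 * (M - y)) M := by
        have h3 : 14 * (M - y) = -(14 * y) + 14 * M := by ring
        rw [h3]
        exact (IsCoprime.add_mul_right_left_iff).2 hcy.neg_left
      have h3 := step (M - y) h2 (by omega) (by omega)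
      have h4 := (h3.neg H).add H hM0 1
      have e : -(M - y) + 1 * M = y := by ring
      rwa [e] at h4

/-- **SYM**: the explicit formula for the modular symbol -/
theorem t_SYM {s : ℚ → ℤ} {a : ℕ → ℤ} (h : Pool.Agent.Y687.Symb2 s a) (h5 : a 5 = 0) :
    ∀ x M : ℤ, 0 < M → IsCoprime (14 * x) M →
      s ((x : ℚ) / M) = s 0 * (1 - 3 * Pool.Agent.Z700.Fp x M) := by
  intro x M hM hcop
  have h1 := Gd_all h h5 M.natAbs x M rfl hM.ne' hcop
  unfold Gd at h1
  rw [G_eq (NV_cop hcop)] at h1
  linarith

end Pool.Agent.Y681.Z7
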